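import Mathlib

set_option autoImplicit false

/-!
# No threshold for invariant circles of standard-like maps

For a real-analytic potential `V : 𝕋 → ℝ` of zero mean the map `F_{V,λ}` of the cylinder is
`r' = r + λ V(θ)`, `θ' = θ + r'`.  We show that the set of parameters `λ > 0` for which `F_{V,λ}`
has an invariant circle of a given rotation number `ρ` need not be an interval: for every
non-integer `ρ` there is a `V` such that `F_{V,1}` has an analytic invariant circle of rotation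
number `ρ`, while `F_{V,3/4}` has no invariant circle at all.

Construction: let `A q` be the lift of the Möbius circle map `z ↦ (z - q) / (1 - q z)`,
`g = (A q)⁻¹ (A q + ρ)` and `V = g + g⁻¹ - 2 id`.  At `λ = 1` the graph `r = θ - g⁻¹(θ)` is
invariant with dynamics `g`.  As `q → 1` the potential tends to the sawtooth `1 - 2θ` on `(0,1)`,
and at `λ = 3/4` an intermediate value argument yields an accelerator orbit
`(θ, r) ↦ (θ, r + 1)` of period three, which no homotopically non-trivial closed invariant curve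
can separate.  The separation property is proved with the covering `exp : ℂ → ℂ \ {0}`.
-/

open Topology Set Filter

namespace Pool.Agent.Results.MP_d23f22_an.ThresholdFails

/-! ## Definitions used in the statement -/

/-- The map `F_{V,λ}` of the cylinder `𝕋 × ℝ`: `r' = r + λ V(θ)`, `θ' = θ + r'`. -/
noncomputable def cylMap (V : UnitAddCircle → ℝ) (lam : ℝ) (p : UnitAddCircle × ℝ) :
    UnitAddCircle × ℝ :=
  (p.1 + ((p.2 + lam * V p.1 : ℝ) : UnitAddCircle), p.2 + lam * V p.1)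

/-- The lift of `F_{V,λ}` to the plane `ℝ × ℝ`, as a bijection (so that it has integer
iterates). -/
noncomputable def liftMap (V : UnitAddCircle → ℝ) (lam : ℝ) : Equiv.Perm (ℝ × ℝ) where
  toFun p := (p.1 + (p.2 + lam * V (p.1 : UnitAddCircle)), p.2 + lam * V (p.1 : UnitAddCircle))
  invFun q := (q.1 - q.2, q.2 - lam * V ((q.1 - q.2 : ℝ) : UnitAddCircle))
  left_inv := by
    intro p
    simp
  right_inv := by
    intro q
    simp

/-- `Γ ⊆ 𝕋 × ℝ` is an invariant circle of `F_{V,λ}`: it is a homotopically non-trivial embedded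
circle with `F(Γ) = Γ`. -/
def IsInvariantCircle (V : UnitAddCircle → ℝ) (lam : ℝ) (Γ : Set (UnitAddCircle × ℝ)) : Prop :=
  (∃ c : C(UnitAddCircle, UnitAddCircle × ℝ),
    Function.Injective c ∧ ¬ c.Nullhomotopic ∧ Set.range c = Γ) ∧ cylMap V lam '' Γ = Γ

/-- Every orbit `(θ_n, r_n)` of the lifted map over `Γ` satisfies
`(θ_n - θ_0) / n → ρ` as `n → ±∞`. -/
def HasRotationNumber (V : UnitAddCircle → ℝ) (lam : ℝ) (Γ : Set (UnitAddCircle × ℝ))
    (ρ : ℝ) : Prop :=
  ∀ p : ℝ × ℝ, ((p.1 : UnitAddCircle), p.2) ∈ Γ →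
    Tendsto (fun n : ℤ => (((liftMap V lam ^ n) p).1 - p.1) / (n : ℝ)) atTop (𝓝 ρ) ∧
    Tendsto (fun n : ℤ => (((liftMap V lam ^ n) p).1 - p.1) / (n : ℝ)) atBot (𝓝 ρ)

/-- `Γ` is the graph `r = R(θ)` of a real-analytic `R : 𝕋 → ℝ`. -/
def IsAnalyticGraph (Γ : Set (UnitAddCircle × ℝ)) : Prop :=
  ∃ R : UnitAddCircle → ℝ,
    AnalyticOnNhd ℝ (fun x : ℝ => R (x : UnitAddCircle)) univ ∧ Γ = {p | p.2 = R p.1}

/-- Admissible potentials: `V : 𝕋 → ℝ` real-analytic, not identically zero, of zero mean. -/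
def IsPotential (V : UnitAddCircle → ℝ) : Prop :=
  AnalyticOnNhd ℝ (fun x : ℝ => V (x : UnitAddCircle)) univ ∧ V ≠ 0 ∧
    ∫ x in (0 : ℝ)..1, V (x : UnitAddCircle) = 0

/-- Diophantine numbers: `|ρ - m/n| > C/n^d` for some `C > 0`, `d > 2` and all integers `m` and
positive integers `n`. -/
def IsDiophantine (ρ : ℝ) : Prop :=
  ∃ C > (0 : ℝ), ∃ d > (2 : ℝ), ∀ (m : ℤ) (n : ℕ), 0 < n → C / (n : ℝ) ^ d < |ρ - m / n|

/-- The threshold property of the conjecture: there is `L ≥ 0` such that `F_{V,λ}` has no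
invariant circle of rotation number `ρ` for `|λ| > L`, and has an analytic one for `|λ| < L`. -/
def HasThreshold (V : UnitAddCircle → ℝ) (ρ : ℝ) : Prop :=
  ∃ L : ℝ, 0 ≤ L ∧
    (∀ lam : ℝ, L < |lam| → ¬ ∃ Γ, IsInvariantCircle V lam Γ ∧ HasRotationNumber V lam Γ ρ) ∧
    (∀ lam : ℝ, |lam| < L → ∃ Γ, IsInvariantCircle V lam Γ ∧ IsAnalyticGraph Γ ∧
      HasRotationNumber V lam Γ ρ)

/-! ## Planar topology -/

/-- If two continuous functions on a preconnected space have the same exponential, their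
difference is constant. -/
lemma sub_const_of_exp {X : Type*} [TopologicalSpace X] [PreconnectedSpace X] {f g : X → ℂ}
    (hf : Continuous f) (hg : Continuous g)
    (h : ∀ x, Complex.exp (f x) = Complex.exp (g x)) (x y : X) : f x - g x = f y - g y := by
  have key := Complex.isCoveringMap_exp.eq_of_comp_eq (g₁ := f)
    (g₂ := fun z => g z + (f x - g x)) hf (by fun_prop) ?_ x (by ring)
  · have := congrFun key y
    rw [this]; ring
  · funext z
    simp only [Function.comp_apply, Subtype.mk.injEq]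
    rw [Complex.exp_add, Complex.exp_sub, h x, div_self (Complex.exp_ne_zero _), mul_one, h z]

/-- The logarithm of a nowhere vanishing continuous function on the plane. -/
lemma exists_log (G : ℝ × ℝ → ℂ) (hG : Continuous G) (h0 : ∀ p, G p ≠ 0) :
    ∃ Φ : ℝ × ℝ → ℂ, Continuous Φ ∧ ∀ p, Complex.exp (Φ p) = G p := by
  obtain ⟨Φ, ⟨-, hΦ⟩, -⟩ := Complex.isCoveringMapOn_exp.existsUnique_continuousMap_lifts
    (⟨G, hG⟩ : C(ℝ × ℝ, ℂ)) (a₀ := (0, 0)) (e₀ := Complex.log (G (0, 0)))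
    (by simpa using Complex.exp_log (h0 _)) (by intro a; simpa using h0 a)
  exact ⟨Φ, Φ.continuous, fun p => congrFun hΦ p⟩

lemma log_sub_log_neg_of_im_pos {z : ℂ} (h : 0 < z.im) :
    Complex.log z - Complex.log (-z) = Real.pi * Complex.I := by
  have h1 : Complex.arg (-z) = Complex.arg z - Real.pi := Complex.arg_neg_eq_arg_sub_pi_of_im_pos h
  rw [Complex.log, Complex.log, h1, norm_neg]
  push_cast
  ring

lemma log_sub_log_neg_of_im_neg {z : ℂ} (h : z.im < 0) :
    Complex.log z - Complex.log (-z) = -(Real.pi * Complex.I) := by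
  have h1 : Complex.arg (-z) = Complex.arg z + Real.pi := Complex.arg_neg_eq_arg_add_pi_of_im_neg h
  rw [Complex.log, Complex.log, h1, norm_neg]
  push_cast
  ring

lemma mem_slit_of_im_pos {z : ℂ} (h : 0 < z.im) : z ∈ Complex.slitPlane := Or.inr h.ne'
lemma mem_slit_of_im_neg {z : ℂ} (h : z.im < 0) : z ∈ Complex.slitPlane := Or.inr h.ne
lemma mem_slit_of_re_pos {z : ℂ} (h : 0 < z.re) : z ∈ Complex.slitPlane := Or.inl h

/-- Planar crossing lemma: rectangle version. -/
lemma crossing_rect (G : ℝ × ℝ → ℂ) (hG : Continuous G)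
    (hbot : ∀ t, 0 < (G (t, 0)).im) (htop : ∀ t, (G (t, 1)).im < 0)
    (T1 T2 : ℝ) (hright : ∀ s, 0 < (G (T1, s)).re) (hleft : ∀ s, (G (T2, s)).re < 0) :
    ∃ p, G p = 0 := by
  by_contra hne
  push Not at hne
  obtain ⟨Φ, hΦ, hexp⟩ := exists_log G hG hne
  have c0 := sub_const_of_exp (f := fun t : ℝ => Φ (t, 0))
    (g := fun t : ℝ => Complex.log (G (t, 0))) (by fun_prop)
    (Continuous.clog (by fun_prop) fun t => mem_slit_of_im_pos (hbot t))
    (fun t => by rw [hexp, Complex.exp_log (hne _)]) T1 T2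
  have c1 := sub_const_of_exp (f := fun t : ℝ => Φ (t, 1))
    (g := fun t : ℝ => Complex.log (G (t, 1))) (by fun_prop)
    (Continuous.clog (by fun_prop) fun t => mem_slit_of_im_neg (htop t))
    (fun t => by rw [hexp, Complex.exp_log (hne _)]) T1 T2
  have c2 := sub_const_of_exp (f := fun s : ℝ => Φ (T1, s))
    (g := fun s : ℝ => Complex.log (G (T1, s))) (by fun_prop)
    (Continuous.clog (by fun_prop) fun s => mem_slit_of_re_pos (hright s))
    (fun s => by rw [hexp, Complex.exp_log (hne _)]) 0 1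
  have c3 := sub_const_of_exp (f := fun s : ℝ => Φ (T2, s))
    (g := fun s : ℝ => Complex.log (-G (T2, s)) + Real.pi * Complex.I) (by fun_prop)
    ((Continuous.clog (by fun_prop) fun s => mem_slit_of_re_pos (by
      simpa using hleft s)).add continuous_const)
    (fun s => by
      rw [hexp, Complex.exp_add, Complex.exp_log (neg_ne_zero.2 (hne _)), Complex.exp_pi_mul_I]
      ring) 0 1
  have l0 := log_sub_log_neg_of_im_pos (hbot T2)
  have l1 := log_sub_log_neg_of_im_neg (htop T2)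
  have : (Real.pi * Complex.I : ℂ) = 0 := by
    linear_combination (1 / 2 : ℂ) * (c0 - c1 - c2 + c3 - l0 + l1)
  simp at this

/-- A path from far below to far above a curve `γ` with `γ (t + 1) = γ t + d`, `d ≠ 0` real,
meets the curve. -/
lemma crossing {γ : ℝ → ℂ} (hγ : Continuous γ) {d : ℝ} (hd : d ≠ 0)
    (hper : ∀ t, γ (t + 1) = γ t + d) {α : ℝ → ℂ} (hα : Continuous α)
    (hαb : ∃ M, ∀ s, |(α s).re| ≤ M)
    (h0 : ∀ t, (α 0).im < (γ t).im) (h1 : ∀ t, (γ t).im < (α 1).im) :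
    ∃ t s, γ t = α s := by
  obtain ⟨M, hM⟩ := hαb
  have hnat : ∀ (n : ℤ), γ n = γ 0 + n * d := by
    intro n
    induction n using Int.induction_on with
    | zero => simp
    | succ n ih =>
      push_cast at ih ⊢
      rw [hper, ih]; ring
    | pred n ih =>
      have := hper (-(n : ℝ) - 1)
      push_cast at ih ⊢
      rw [sub_add_cancel, ih] at this
      linear_combination -this
  obtain ⟨n, hn⟩ := exists_nat_gt ((M + |(γ 0).re|) / |d|)
  have hd' : 0 < |d| := abs_pos.2 hd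
  rw [div_lt_iff₀ hd'] at hn
  have e1 : (γ ((n : ℤ) : ℝ)).re = (γ 0).re + n * d := by
    rw [hnat]; simp
  have e2 : (γ ((-n : ℤ) : ℝ)).re = (γ 0).re - n * d := by
    rw [hnat]; simp; ring
  have a1 := neg_abs_le (γ 0).re
  have a2 := le_abs_self (γ 0).re
  have main : ∃ T1 T2 : ℝ, (∀ s, 0 < (γ T1 - α s).re) ∧ (∀ s, (γ T2 - α s).re < 0) := by
    rcases lt_or_gt_of_ne hd with hneg | hpos
    · rw [abs_of_neg hneg] at hn
      refine ⟨((-n : ℤ) : ℝ), ((n : ℤ) : ℝ), fun s => ?_, fun s => ?_⟩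
      · have := abs_le.1 (hM s)
        rw [Complex.sub_re, e2]; nlinarith
      · have := abs_le.1 (hM s)
        rw [Complex.sub_re, e1]; nlinarith
    · rw [abs_of_pos hpos] at hn
      refine ⟨((n : ℤ) : ℝ), ((-n : ℤ) : ℝ), fun s => ?_, fun s => ?_⟩
      · have := abs_le.1 (hM s)
        rw [Complex.sub_re, e1]; nlinarith
      · have := abs_le.1 (hM s)
        rw [Complex.sub_re, e2]; nlinarith
  obtain ⟨T1, T2, hT1, hT2⟩ := main
  obtain ⟨⟨t, s⟩, hp⟩ := crossing_rect (fun p => γ p.1 - α p.2) (by fun_prop)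
    (fun t => by simpa using h0 t) (fun t => by simpa using h1 t) T1 T2 hT1 hT2
  exact ⟨t, s, sub_eq_zero.1 hp⟩

lemma coe_covering : IsCoveringMap ((↑) : ℝ → UnitAddCircle) := AddCircle.isCoveringMap_coe 1

lemma coe_cont : Continuous ((↑) : ℝ → UnitAddCircle) := AddCircle.continuous_mk' 1

lemma coe_add_one (t : ℝ) : ((t + 1 : ℝ) : UnitAddCircle) = (t : UnitAddCircle) := by
  rw [AddCircle.coe_add, AddCircle.coe_period, add_zero]

/-- The identity of the circle is not nullhomotopic. -/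
lemma id_not_nullhomotopic : ¬ (ContinuousMap.id UnitAddCircle).Nullhomotopic := by
  rintro ⟨y, ⟨K⟩⟩
  obtain ⟨y', rfl⟩ := QuotientAddGroup.mk_surjective y
  let K' := K.symm
  obtain ⟨Kt, h1, h2⟩ : ∃ Kt : C(unitInterval × UnitAddCircle, ℝ),
      ((↑) : ℝ → UnitAddCircle) ∘ Kt = K'.toContinuousMap ∧ ∀ a, Kt (0, a) = y' := by
    refine ⟨coe_covering.liftHomotopy K'.toContinuousMap (ContinuousMap.const _ y') ?_, ?_, ?_⟩
    · intro a
      exact K'.apply_zero a
    · exact coe_covering.liftHomotopy_lifts _ _ _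
    · intro a
      exact coe_covering.liftHomotopy_zero _ _ _ a
  -- the section of the covering
  let σ : UnitAddCircle → ℝ := fun θ => Kt (1, θ)
  have hσ : Continuous σ := by fun_prop
  have hσ1 : ∀ θ, ((σ θ : ℝ) : UnitAddCircle) = θ := by
    intro θ
    have := congrFun h1 (1, θ)
    exact this.trans (K'.apply_one θ)
  have key := coe_covering.eq_of_comp_eq (g₁ := fun t : ℝ => σ (t : UnitAddCircle))
    (g₂ := fun t : ℝ => t + σ 0) (hσ.comp coe_cont) (by fun_prop) ?_ 0 (by simp)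
  · have h3 := congrFun key 1
    have h4 : ((1 : ℝ) : UnitAddCircle) = 0 := AddCircle.coe_period 1
    simp only [h4] at h3
    linarith
  · funext t
    simp only [Function.comp_apply]
    rw [hσ1, AddCircle.coe_add, hσ1, add_zero]

/-- Lift of a closed curve on the cylinder which is not nullhomotopic. -/
lemma exists_lift (c : C(UnitAddCircle, UnitAddCircle × ℝ)) (hc : ¬ c.Nullhomotopic) :
    ∃ (g : ℝ → ℝ) (d : ℝ), Continuous g ∧ d ≠ 0 ∧
      (∀ t : ℝ, ((g t : ℝ) : UnitAddCircle) = (c (t : UnitAddCircle)).1) ∧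
      ∀ t, g (t + 1) = g t + d := by
  have hcont : Continuous (fun t : ℝ => (c (t : UnitAddCircle)).1) :=
    continuous_fst.comp (c.continuous.comp coe_cont)
  obtain ⟨y', hy'⟩ := QuotientAddGroup.mk_surjective ((c ((0 : ℝ) : UnitAddCircle)).1)
  obtain ⟨g, ⟨-, hg⟩, -⟩ := coe_covering.existsUnique_continuousMap_lifts
    (⟨_, hcont⟩ : C(ℝ, UnitAddCircle)) 0 y' hy'
  have hg' : ∀ t : ℝ, ((g t : ℝ) : UnitAddCircle) = (c (t : UnitAddCircle)).1 :=
    fun t => congrFun hg t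
  have hper : ∀ t, g (t + 1) = g t + (g 1 - g 0) := by
    have key := coe_covering.eq_of_comp_eq (g₁ := fun t : ℝ => g (t + 1))
      (g₂ := fun t : ℝ => g t + (g 1 - g 0)) (by fun_prop) (by fun_prop) ?_ 0 (by simp)
    · exact fun t => congrFun key t
    · funext t
      simp only [Function.comp_apply]
      have h1 : ((1 : ℝ) : UnitAddCircle) = ((0 : ℝ) : UnitAddCircle) := by
        simpa using AddCircle.coe_period (1 : ℝ)
      rw [hg', coe_add_one, AddCircle.coe_add, AddCircle.coe_sub, hg', hg' 1, hg' 0, h1, sub_self,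
        add_zero]
  refine ⟨g, g 1 - g 0, g.continuous, ?_, hg', hper⟩
  intro h0
  apply hc
  have hP : Function.Periodic g 1 := by
    intro t
    rw [hper t, h0, add_zero]
  have hLc : Continuous (hP.lift : UnitAddCircle → ℝ) :=
    continuous_coinduced_dom.mpr (by
      show Continuous g
      exact g.continuous)
  let L : C(UnitAddCircle, ℝ × ℝ) := ⟨fun θ => (hP.lift θ, (c θ).2), by fun_prop⟩
  let p : C(ℝ × ℝ, UnitAddCircle × ℝ) := ⟨fun z => ((z.1 : UnitAddCircle), z.2),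
    (coe_cont.comp continuous_fst).prodMk continuous_snd⟩
  have hcL : c = p.comp L := by
    ext1 θ
    obtain ⟨t, rfl⟩ := QuotientAddGroup.mk_surjective θ
    refine Prod.ext ?_ rfl
    exact (hg' t).symm
  rw [hcL]
  have hid := id_nullhomotopic (ℝ × ℝ)
  have := (hid.comp_right p).comp_left L
  simpa using this

/-- The projection of the plane to the cylinder. -/
noncomputable def proj (p : ℝ × ℝ) : UnitAddCircle × ℝ := ((p.1 : UnitAddCircle), p.2)

lemma proj_cont : Continuous proj := (coe_cont.comp continuous_fst).prodMk continuous_snd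

lemma cylMap_proj (V : UnitAddCircle → ℝ) (lam : ℝ) (p : ℝ × ℝ) :
    cylMap V lam (proj p) = proj (liftMap V lam p) := by
  simp [cylMap, proj, liftMap]

lemma cylMap_inj (V : UnitAddCircle → ℝ) (lam : ℝ) : Function.Injective (cylMap V lam) := by
  rintro ⟨a, r⟩ ⟨b, s⟩ h
  simp only [cylMap, Prod.mk.injEq] at h
  obtain ⟨h1, h2⟩ := h
  rw [h2] at h1
  have h3 : a = b := by simpa using h1
  subst h3
  simpa using h2

lemma liftMap_cont {V : UnitAddCircle → ℝ} (hV : Continuous V) (lam : ℝ) :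
    Continuous (liftMap V lam) := by
  have h : Continuous (fun p : ℝ × ℝ => V (p.1 : UnitAddCircle)) :=
    hV.comp (coe_cont.comp continuous_fst)
  show Continuous (fun p : ℝ × ℝ => (p.1 + (p.2 + lam * V (p.1 : UnitAddCircle)),
    p.2 + lam * V (p.1 : UnitAddCircle)))
  fun_prop

theorem no_circle {V : UnitAddCircle → ℝ} (hV : Continuous V) {lam x y : ℝ}
    (hx : lam * V (x : UnitAddCircle) = 1 / 2 + y - x)
    (hy : lam * V ((1 / 2 + y : ℝ) : UnitAddCircle) = 2 * x - 2 * y)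
    (Γ : Set (UnitAddCircle × ℝ)) : ¬ IsInvariantCircle V lam Γ := by
  rintro ⟨⟨c, -, hc, rfl⟩, hinv⟩
  obtain ⟨g, d, hg, hd, hgc, hgper⟩ := exists_lift c hc
  -- bounds
  obtain ⟨M, hM⟩ : ∃ M, ∀ θ, |(c θ).2| ≤ M := by
    obtain ⟨M, hM⟩ := isCompact_univ.exists_bound_of_continuousOn
      (f := fun θ : UnitAddCircle => (c θ).2) (by fun_prop)
    exact ⟨M, fun θ => hM θ (mem_univ _)⟩
  obtain ⟨K, hK⟩ : ∃ K, ∀ θ, |lam * V θ| ≤ K := by
    obtain ⟨K, hK⟩ := isCompact_univ.exists_bound_of_continuousOn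
      (f := fun θ : UnitAddCircle => lam * V θ) (by fun_prop)
    exact ⟨K, fun θ => hK θ (mem_univ _)⟩
  set S : Set (ℝ × ℝ) := {p | proj p ∉ range c} with hS
  have hlowS : {p : ℝ × ℝ | p.2 < -M} ⊆ S := by
    rintro p hp ⟨θ, hθ⟩
    have := abs_le.1 (hM θ)
    rw [hθ] at this
    simp only [proj, mem_setOf_eq] at this hp
    linarith [this.1]
  have hlowJ : ∀ p w : ℝ × ℝ, p.2 < -M → w.2 < -M → JoinedIn S p w := by
    intro p w hp hw
    have hconv : Convex ℝ {p : ℝ × ℝ | p.2 < -M} := by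
      have : {p : ℝ × ℝ | p.2 < -M} = (LinearMap.snd ℝ ℝ ℝ) ⁻¹' (Iio (-M)) := rfl
      rw [this]
      exact (convex_Iio _).linear_preimage _
    exact ((hconv.isPathConnected ⟨p, hp⟩).joinedIn p hp w hw).mono hlowS
  have hmapS : ∀ p ∈ S, liftMap V lam p ∈ S := by
    intro p hp hmem
    apply hp
    rw [← cylMap_proj] at hmem
    have : cylMap V lam (proj p) ∈ cylMap V lam '' range c := by rw [hinv]; exact hmem
    obtain ⟨z, hz, hz'⟩ := this
    rwa [← cylMap_inj V lam hz']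
  -- the set of points joined to low points
  set W : Set (ℝ × ℝ) := {p | ∃ w : ℝ × ℝ, w.2 < -M ∧ JoinedIn S p w} with hW
  have hWmap : ∀ p ∈ W, liftMap V lam p ∈ W := by
    rintro p ⟨w, hw, hpw⟩
    have hKnn : 0 ≤ K := (abs_nonneg _).trans (hK 0)
    have hw' : ((w.1, -M - K - 1) : ℝ × ℝ).2 < -M := by
      simp only; linarith
    have hJ := hpw.trans (hlowJ w (w.1, -M - K - 1) hw hw')
    refine ⟨liftMap V lam (w.1, -M - K - 1), ?_, ?_⟩
    · have := abs_le.1 (hK (w.1 : UnitAddCircle))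
      show -M - K - 1 + lam * V (w.1 : UnitAddCircle) < -M
      linarith [this.2]
    · have h1 := hJ.map_continuousOn (f := liftMap V lam) (liftMap_cont hV lam).continuousOn
      refine h1.mono ?_
      rintro _ ⟨q, hq, rfl⟩
      exact hmapS q hq
  -- accelerator orbit
  have hVp : ∀ (a : ℝ) (m : ℤ), V ((a + m : ℝ) : UnitAddCircle) = V (a : UnitAddCircle) := by
    intro a m
    congr 1
    rw [AddCircle.coe_add]
    have : ((m : ℝ) : UnitAddCircle) = 0 := by
      have := AddCircle.coe_eq_zero_iff (1 : ℝ) (x := (m : ℝ))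
      rw [this]
      exact ⟨m, by simp⟩
    rw [this, add_zero]
  have hacc : ∀ (m k : ℤ), ∃ m' : ℤ, liftMap V lam (liftMap V lam (liftMap V lam
      ((x + m : ℝ), (k : ℝ)))) = ((x + m' : ℝ), ((k + 1 : ℤ) : ℝ)) := by
    intro m k
    refine ⟨m + 3 * k + 2, ?_⟩
    have e1 : liftMap V lam ((x + m : ℝ), (k : ℝ)) =
        ((1 / 2 + y + (m + k : ℤ) : ℝ), (k + 1 / 2 + y - x : ℝ)) := by
      show (x + m + (k + lam * V ((x + m : ℝ) : UnitAddCircle)),
        k + lam * V ((x + m : ℝ) : UnitAddCircle)) = _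
      rw [hVp, hx]
      refine Prod.ext ?_ ?_ <;> simp only <;> push_cast <;> ring
    have e2 : liftMap V lam ((1 / 2 + y + (m + k : ℤ) : ℝ), (k + 1 / 2 + y - x : ℝ)) =
        ((x + (m + 2 * k + 1 : ℤ) : ℝ), (k + 1 / 2 + x - y : ℝ)) := by
      show (1 / 2 + y + (m + k : ℤ) + (k + 1 / 2 + y - x +
        lam * V ((1 / 2 + y + (m + k : ℤ) : ℝ) : UnitAddCircle)),
        k + 1 / 2 + y - x + lam * V ((1 / 2 + y + (m + k : ℤ) : ℝ) : UnitAddCircle)) = _
      rw [hVp, hy]
      refine Prod.ext ?_ ?_ <;> simp only <;> push_cast <;> ring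
    have e3 : liftMap V lam ((x + (m + 2 * k + 1 : ℤ) : ℝ), (k + 1 / 2 + x - y : ℝ)) =
        ((x + (m + 3 * k + 2 : ℤ) : ℝ), ((k + 1 : ℤ) : ℝ)) := by
      show (x + (m + 2 * k + 1 : ℤ) + (k + 1 / 2 + x - y +
        lam * V ((x + (m + 2 * k + 1 : ℤ) : ℝ) : UnitAddCircle)),
        k + 1 / 2 + x - y + lam * V ((x + (m + 2 * k + 1 : ℤ) : ℝ) : UnitAddCircle)) = _
      rw [hVp, hx]
      refine Prod.ext ?_ ?_ <;> simp only <;> push_cast <;> ring
    rw [e1, e2, e3]
  obtain ⟨N, hN⟩ := exists_nat_gt M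
  have horb : ∀ j : ℕ, ∃ m : ℤ, ((x + m : ℝ), ((-N + j : ℤ) : ℝ)) ∈ W := by
    intro j
    induction j with
    | zero =>
      refine ⟨0, (x + (0 : ℤ), -N), ?_, ?_⟩
      · show -(N : ℝ) < -M
        linarith
      · push_cast
        rw [add_zero (-(N : ℝ))]
        exact JoinedIn.refl (hlowS (by show -(N : ℝ) < -M; linarith))
    | succ j ih =>
      obtain ⟨m, hm⟩ := ih
      obtain ⟨m', hm'⟩ := hacc m (-N + j)
      refine ⟨m', ?_⟩
      have := hWmap _ (hWmap _ (hWmap _ hm))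
      rw [hm'] at this
      have e : ((-N + (j + 1 : ℕ) : ℤ) : ℝ) = ((-N + j + 1 : ℤ) : ℝ) := by push_cast; ring
      rw [e]
      exact this
  obtain ⟨m, w, hw, hJ⟩ := horb (2 * N)
  have hhigh : M < ((-N + (2 * N : ℕ) : ℤ) : ℝ) := by
    push_cast; linarith
  obtain ⟨P, hP⟩ := hJ.symm
  -- crossing
  let emb : ℝ × ℝ → ℂ := fun p => (p.1 : ℂ) + p.2 * Complex.I
  have hemb : Continuous emb := by fun_prop
  have hembre : ∀ p, (emb p).re = p.1 := by intro p; simp [emb]
  have hembim : ∀ p, (emb p).im = p.2 := by intro p; simp [emb]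
  have hc2 : Continuous (fun t : ℝ => (c (t : UnitAddCircle)).2) :=
    continuous_snd.comp (c.continuous.comp coe_cont)
  obtain ⟨t, s, hts⟩ := crossing (γ := fun t => emb (g t, (c (t : UnitAddCircle)).2))
    (by fun_prop) hd (by
      intro t
      apply Complex.ext
      · simp [hembre, hgper]
      · simp [hembim, coe_add_one]) (α := fun s => emb (P.extend s))
    (hemb.comp P.continuous_extend) (by
      obtain ⟨B, hB⟩ := isCompact_univ.exists_bound_of_continuousOn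
        (f := fun s : unitInterval => (P s).1) (by fun_prop)
      refine ⟨B, fun s => ?_⟩
      rw [hembre]
      have : P.extend s ∈ range P := by
        rw [← Path.extend_range P]
        exact mem_range_self s
      obtain ⟨u, hu⟩ := this
      rw [← hu]
      exact hB u (mem_univ _))
    (by
      intro t
      have := abs_le.1 (hM (t : UnitAddCircle))
      simp only [hembim, Path.extend_zero]
      linarith [this.1])
    (by
      intro t
      have := abs_le.1 (hM (t : UnitAddCircle))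
      simp only [hembim, Path.extend_one]
      linarith [this.2])
  have hmem : P.extend s ∈ S := by
    have : P.extend s ∈ range P := by
      rw [← Path.extend_range P]
      exact mem_range_self s
    obtain ⟨u, hu⟩ := this
    rw [← hu]
    exact hP u
  apply hmem
  refine ⟨(t : UnitAddCircle), ?_⟩
  have h1 : g t = (P.extend s).1 := by
    have := congrArg Complex.re hts
    simpa only [hembre] using this
  have h2 : (c (t : UnitAddCircle)).2 = (P.extend s).2 := by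
    have := congrArg Complex.im hts
    simpa only [hembim] using this
  refine Prod.ext ?_ ?_
  · rw [proj, ← h1, hgc]
  · rw [proj, ← h2]

/-! ## The potential -/

/-- `A q` is the lift of the Möbius circle map with `tan (π A q x) = (1+q)/(1-q) tan (π x)`. -/
noncomputable def A (q x : ℝ) : ℝ :=
  x + Real.arctan (q * Real.sin (2 * Real.pi * x) / (1 - q * Real.cos (2 * Real.pi * x))) / Real.pi

lemma den_pos {q : ℝ} (hq : |q| < 1) (x : ℝ) : 0 < 1 - q * Real.cos x := by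
  have h1 : |q * Real.cos x| < 1 := by
    rw [abs_mul]
    calc |q| * |Real.cos x| ≤ |q| * 1 := by
          gcongr
          exact Real.abs_cos_le_one x
      _ < 1 := by rwa [mul_one]
  linarith [(abs_lt.1 h1).2]

lemma cos_sin_two_arctan (t : ℝ) : Real.cos (2 * Real.arctan t) = (1 - t ^ 2) / (1 + t ^ 2) ∧
    Real.sin (2 * Real.arctan t) = 2 * t / (1 + t ^ 2) := by
  have h1 : 0 < 1 + t ^ 2 := by positivity
  constructor
  · rw [Real.cos_two_mul, Real.cos_sq_arctan]
    field_simp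
    ring
  · rw [Real.sin_two_mul, Real.sin_arctan, Real.cos_arctan]
    have h2 : √(1 + t ^ 2) * √(1 + t ^ 2) = 1 + t ^ 2 := Real.mul_self_sqrt h1.le
    have h3 : √(1 + t ^ 2) ≠ 0 := (Real.sqrt_pos.2 h1).ne'
    calc 2 * (t / √(1 + t ^ 2)) * (1 / √(1 + t ^ 2)) =
        2 * t / (√(1 + t ^ 2) * √(1 + t ^ 2)) := by field_simp
      _ = _ := by rw [h2]

/-- The inverse of `A q` is `A (-q)`. -/
lemma A_neg_A {q : ℝ} (hq : |q| < 1) (x : ℝ) : A (-q) (A q x) = x := by
  have hd := den_pos hq (2 * Real.pi * x)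
  set c := Real.cos (2 * Real.pi * x) with hc
  set s := Real.sin (2 * Real.pi * x) with hs
  have hcs : s ^ 2 + c ^ 2 = 1 := Real.sin_sq_add_cos_sq _
  set t := q * s / (1 - q * c) with ht
  have hpi := Real.pi_ne_zero
  have e0 : A q x = x + Real.arctan t / Real.pi := by rw [A, ← hs, ← hc, ← ht]
  have e1 : 2 * Real.pi * A q x = 2 * Real.pi * x + 2 * Real.arctan t := by
    rw [e0]
    field_simp
  obtain ⟨hc2, hs2⟩ := cos_sin_two_arctan t
  have hD : (1 - q * c) ^ 2 + q ^ 2 * s ^ 2 = 1 - 2 * q * c + q ^ 2 := by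
    linear_combination q ^ 2 * hcs
  have hDpos : 0 < 1 - 2 * q * c + q ^ 2 := by
    rw [← hD]; positivity
  have hne := hd.ne'
  have h1 : (1 - t ^ 2) / (1 + t ^ 2) = ((1 - q * c) ^ 2 - q ^ 2 * s ^ 2) /
      (1 - 2 * q * c + q ^ 2) := by
    rw [← hD, ht]
    have : (1 - q * c) ^ 2 + q ^ 2 * s ^ 2 ≠ 0 := by rw [hD]; exact hDpos.ne'
    have h3 : 1 + (q * s / (1 - q * c)) ^ 2 ≠ 0 := by positivity
    rw [div_eq_div_iff h3 this]
    field_simp
  have h2 : 2 * t / (1 + t ^ 2) = 2 * q * s * (1 - q * c) / (1 - 2 * q * c + q ^ 2) := by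
    rw [← hD, ht]
    have : (1 - q * c) ^ 2 + q ^ 2 * s ^ 2 ≠ 0 := by rw [hD]; exact hDpos.ne'
    have h3 : 1 + (q * s / (1 - q * c)) ^ 2 ≠ 0 := by positivity
    rw [div_eq_div_iff h3 this]
    field_simp
  have hcos : Real.cos (2 * Real.pi * A q x) = ((1 + q ^ 2) * c - 2 * q) /
      (1 - 2 * q * c + q ^ 2) := by
    rw [e1, Real.cos_add, hc2, hs2, ← hc, ← hs, h1, h2, ← mul_div_assoc, ← mul_div_assoc,
      ← sub_div]
    congr 1
    linear_combination (-2 * q + q ^ 2 * c) * hcs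
  have hsin : Real.sin (2 * Real.pi * A q x) = (s * (1 - q ^ 2)) /
      (1 - 2 * q * c + q ^ 2) := by
    rw [e1, Real.sin_add, hc2, hs2, ← hc, ← hs, h1, h2, ← mul_div_assoc, ← mul_div_assoc,
      ← add_div]
    congr 1
    linear_combination (-q ^ 2 * s) * hcs
  have hq2 : 0 < 1 - q ^ 2 := by
    have := abs_lt.1 hq
    nlinarith
  have ht' : (-q) * Real.sin (2 * Real.pi * A q x) / (1 - (-q) * Real.cos (2 * Real.pi * A q x))
      = -t := by
    rw [hcos, hsin, ht]
    obtain ⟨D, hDdef⟩ : ∃ D, D = 1 - 2 * q * c + q ^ 2 := ⟨_, rfl⟩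
    rw [← hDdef] at hDpos ⊢
    have hD0 := hDpos.ne'
    have h4 : 1 - (-q) * (((1 + q ^ 2) * c - 2 * q) / D) = (1 - q ^ 2) * (1 - q * c) / D := by
      rw [eq_div_iff hD0, sub_mul, mul_assoc, div_mul_cancel₀ _ hD0, hDdef]
      ring
    rw [h4]
    have := hq2.ne'
    field_simp
  rw [A, ht', Real.arctan_neg, e0]
  ring

lemma A_A_neg {q : ℝ} (hq : |q| < 1) (x : ℝ) : A q (A (-q) x) = x := by
  have := A_neg_A (q := -q) (by rwa [abs_neg]) x
  rwa [neg_neg] at this

lemma A_add_int (q x : ℝ) (m : ℤ) : A q (x + m) = A q x + m := by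
  have e : 2 * Real.pi * (x + m) = 2 * Real.pi * x + m * (2 * Real.pi) := by ring
  rw [A, A, e, Real.sin_add_int_mul_two_pi, Real.cos_add_int_mul_two_pi]
  ring

lemma A_neg (q x : ℝ) : A q (-x) = -A q x := by
  have e : 2 * Real.pi * (-x) = -(2 * Real.pi * x) := by ring
  rw [A, A, e, Real.sin_neg, Real.cos_neg, mul_neg, neg_div, Real.arctan_neg]
  ring

lemma A_sub_le (q x : ℝ) : |A q x - x| ≤ 1 / 2 := by
  have hpi := Real.pi_pos
  rw [A, add_sub_cancel_left, abs_div, abs_of_pos hpi, div_le_iff₀ hpi, abs_le]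
  constructor
  · linarith [Real.neg_pi_div_two_lt_arctan
      (q * Real.sin (2 * Real.pi * x) / (1 - q * Real.cos (2 * Real.pi * x)))]
  · linarith [Real.arctan_lt_pi_div_two
      (q * Real.sin (2 * Real.pi * x) / (1 - q * Real.cos (2 * Real.pi * x)))]

lemma A_contDiff {q : ℝ} (hq : |q| < 1) {n : WithTop ℕ∞} : ContDiff ℝ n (A q) := by
  unfold A
  have hd : ∀ x, 1 - q * Real.cos (2 * Real.pi * x) ≠ 0 := fun x => (den_pos hq _).ne'
  have h1 : ContDiff ℝ n (fun x : ℝ => Real.sin (2 * Real.pi * x)) :=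
    Real.contDiff_sin.comp (contDiff_const.mul contDiff_id)
  have h2 : ContDiff ℝ n (fun x : ℝ => Real.cos (2 * Real.pi * x)) :=
    Real.contDiff_cos.comp (contDiff_const.mul contDiff_id)
  exact contDiff_id.add ((Real.contDiff_arctan.comp ((contDiff_const.mul h1).div
    (contDiff_const.sub (contDiff_const.mul h2)) hd)).div_const _)

/-- Values of `A 1` on `(0, 1)`. -/
lemma A_one {x : ℝ} (h0 : 0 < x) (h1 : x < 1) : A 1 x = 1 / 2 := by
  have hpi := Real.pi_pos
  have hs : 0 < Real.sin (Real.pi * x) :=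
    Real.sin_pos_of_pos_of_lt_pi (by positivity) (by nlinarith)
  have e : 2 * Real.pi * x = 2 * (Real.pi * x) := by ring
  have key : 1 * Real.sin (2 * Real.pi * x) / (1 - 1 * Real.cos (2 * Real.pi * x)) =
      Real.tan (Real.pi / 2 - Real.pi * x) := by
    rw [Real.tan_pi_div_two_sub, Real.tan_eq_sin_div_cos, e, Real.sin_two_mul, Real.cos_two_mul,
      inv_div]
    have hcs := Real.sin_sq_add_cos_sq (Real.pi * x)
    have : 1 - 1 * (2 * Real.cos (Real.pi * x) ^ 2 - 1) = 2 * Real.sin (Real.pi * x) ^ 2 := by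
      linear_combination (-2) * hcs
    rw [this]
    field_simp
  rw [A, key, Real.arctan_tan (by nlinarith) (by nlinarith)]
  field_simp
  ring

/-- Symmetric values of `A (-1)`. -/
lemma A_neg_one (r : ℝ) : A (-1) (1 / 2 + r) + A (-1) (1 / 2 - r) = 1 := by
  have e1 : 2 * Real.pi * (1 / 2 + r) = 2 * Real.pi * r + Real.pi := by ring
  have e2 : 2 * Real.pi * (1 / 2 - r) = Real.pi - 2 * Real.pi * r := by ring
  rw [A, A, e1, e2, Real.sin_add_pi, Real.cos_add_pi, Real.sin_pi_sub, Real.cos_pi_sub]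
  have : -1 * Real.sin (2 * Real.pi * r) / (1 - -1 * -Real.cos (2 * Real.pi * r)) =
    -(-1 * -Real.sin (2 * Real.pi * r) / (1 - -1 * -Real.cos (2 * Real.pi * r))) := by ring
  rw [this, Real.arctan_neg]
  ring

lemma A_continuousAt {q x : ℝ} (h : 1 - q * Real.cos (2 * Real.pi * x) ≠ 0) :
    ContinuousAt (fun p : ℝ × ℝ => A p.1 p.2) (q, x) := by
  unfold A
  have h1 : ContinuousAt (fun p : ℝ × ℝ => p.1 * Real.sin (2 * Real.pi * p.2)) (q, x) := by
    fun_prop
  have h2 : ContinuousAt (fun p : ℝ × ℝ => 1 - p.1 * Real.cos (2 * Real.pi * p.2)) (q, x) := by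
    fun_prop
  exact continuousAt_snd.add ((Real.continuous_arctan.continuousAt.comp
    (h1.div h2 h)).div_const _)

/-- The circle map with rotation number `ρ`. -/
noncomputable def gfun (q ρ x : ℝ) : ℝ := A (-q) (A q x + ρ)

lemma gfun_gfun {q : ℝ} (hq : |q| < 1) (ρ σ x : ℝ) :
    gfun q σ (gfun q ρ x) = gfun q (ρ + σ) x := by
  rw [gfun, gfun, A_A_neg hq, gfun, add_assoc]

lemma gfun_zero {q : ℝ} (hq : |q| < 1) (x : ℝ) : gfun q 0 x = x := by
  rw [gfun, add_zero, A_neg_A hq]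

lemma gfun_add_int (q ρ x : ℝ) (m : ℤ) : gfun q ρ (x + m) = gfun q ρ x + m := by
  rw [gfun, gfun, A_add_int q x m, ← A_add_int (-q) (A q x + ρ) m]
  congr 1
  ring

lemma gfun_neg (q ρ x : ℝ) : gfun q ρ (-x) = -gfun q (-ρ) x := by
  rw [gfun, gfun, A_neg q x, ← A_neg (-q) (A q x + -ρ)]
  congr 1
  ring

lemma gfun_contDiff {q : ℝ} (hq : |q| < 1) (ρ : ℝ) {n : WithTop ℕ∞} :
    ContDiff ℝ n (gfun q ρ) := by
  unfold gfun
  exact (A_contDiff (q := -q) (by rwa [abs_neg])).comp ((A_contDiff hq).add contDiff_const)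

lemma gfun_sub_le (q ρ x : ℝ) : |gfun q ρ x - x - ρ| ≤ 1 := by
  have h1 := A_sub_le (-q) (A q x + ρ)
  have h2 := A_sub_le q x
  rw [abs_le] at *
  unfold gfun
  constructor <;> linarith [h1.1, h1.2, h2.1, h2.2]

/-- The potential on the line. -/
noncomputable def W (q ρ x : ℝ) : ℝ := gfun q ρ x + gfun q (-ρ) x - 2 * x

lemma W_periodic (q ρ : ℝ) : Function.Periodic (W q ρ) 1 := by
  intro x
  have h1 := gfun_add_int q ρ x 1
  have h2 := gfun_add_int q (-ρ) x 1
  rw [Int.cast_one] at h1 h2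
  rw [W, W, h1, h2]
  ring

lemma W_neg (q ρ x : ℝ) : W q ρ (-x) = -W q ρ x := by
  rw [W, W, gfun_neg, gfun_neg, neg_neg]
  ring

lemma W_contDiff {q : ℝ} (hq : |q| < 1) (ρ : ℝ) {n : WithTop ℕ∞} :
    ContDiff ℝ n (W q ρ) := by
  unfold W
  exact ((gfun_contDiff hq ρ).add (gfun_contDiff hq (-ρ))).sub (contDiff_const.mul contDiff_id)

/-- The invariant graph on the line. -/
noncomputable def Rfun (q ρ x : ℝ) : ℝ := x - gfun q (-ρ) x

lemma Rfun_periodic (q ρ : ℝ) : Function.Periodic (Rfun q ρ) 1 := by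
  intro x
  have h2 := gfun_add_int q (-ρ) x 1
  rw [Int.cast_one] at h2
  rw [Rfun, Rfun, h2]
  ring

lemma Rfun_contDiff {q : ℝ} (hq : |q| < 1) (ρ : ℝ) {n : WithTop ℕ∞} :
    ContDiff ℝ n (Rfun q ρ) := by
  unfold Rfun
  exact contDiff_id.sub (gfun_contDiff hq (-ρ))

/-- The potential on the circle. -/
noncomputable def Vfun (q ρ : ℝ) : UnitAddCircle → ℝ := (W_periodic q ρ).lift

lemma Vfun_coe (q ρ x : ℝ) : Vfun q ρ (x : UnitAddCircle) = W q ρ x :=
  (W_periodic q ρ).lift_coe x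

/-- The invariant graph on the circle. -/
noncomputable def Rc (q ρ : ℝ) : UnitAddCircle → ℝ := (Rfun_periodic q ρ).lift

lemma Rc_coe (q ρ x : ℝ) : Rc q ρ (x : UnitAddCircle) = Rfun q ρ x :=
  (Rfun_periodic q ρ).lift_coe x

lemma continuous_of_coe {f : UnitAddCircle → ℝ} (h : Continuous (fun x : ℝ => f (x : UnitAddCircle))) :
    Continuous f := continuous_coinduced_dom.mpr h

lemma Vfun_cont {q : ℝ} (hq : |q| < 1) (ρ : ℝ) : Continuous (Vfun q ρ) := by
  apply continuous_of_coe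
  simp only [Vfun_coe]
  exact (W_contDiff hq ρ (n := 0)).continuous

lemma Rc_cont {q : ℝ} (hq : |q| < 1) (ρ : ℝ) : Continuous (Rc q ρ) := by
  apply continuous_of_coe
  simp only [Rc_coe]
  exact (Rfun_contDiff hq ρ (n := 0)).continuous

lemma liftMap_graph {q : ℝ} (hq : |q| < 1) (ρ x : ℝ) :
    liftMap (Vfun q ρ) 1 (x, Rfun q ρ x) = (gfun q ρ x, Rfun q ρ (gfun q ρ x)) := by
  show (x + (Rfun q ρ x + 1 * Vfun q ρ (x : UnitAddCircle)),
    Rfun q ρ x + 1 * Vfun q ρ (x : UnitAddCircle)) = _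
  rw [Vfun_coe]
  have h : gfun q (-ρ) (gfun q ρ x) = x := by
    rw [gfun_gfun hq, add_neg_cancel, gfun_zero hq]
  refine Prod.ext ?_ ?_
  · simp only [Rfun, W]; ring
  · simp only [Rfun, W]; rw [h]; ring

lemma liftMap_graph_zpow {q : ℝ} (hq : |q| < 1) (ρ x : ℝ) (n : ℤ) :
    (liftMap (Vfun q ρ) 1 ^ n) (x, Rfun q ρ x) =
      (gfun q (n * ρ) x, Rfun q ρ (gfun q (n * ρ) x)) := by
  induction n using Int.induction_on with
  | zero => simp [gfun_zero hq]
  | succ n ih =>
    rw [add_comm, zpow_add, zpow_one, Equiv.Perm.mul_apply, ih, liftMap_graph hq, gfun_gfun hq]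
    have : ((n : ℤ) : ℝ) * ρ + ρ = ((1 + (n : ℤ) : ℤ) : ℝ) * ρ := by push_cast; ring
    rw [this]
  | pred n ih =>
    have e : (-(n : ℤ) - 1) = -1 + -(n : ℤ) := by ring
    rw [e, zpow_add, Equiv.Perm.mul_apply, ih, zpow_neg_one]
    have h := liftMap_graph hq ρ (gfun q (((-1 + -(n : ℤ) : ℤ) : ℝ) * ρ) x)
    rw [gfun_gfun hq] at h
    have e2 : (((-1 + -(n : ℤ) : ℤ) : ℝ) * ρ + ρ) = ((-(n : ℤ) : ℤ) : ℝ) * ρ := by
      push_cast; ring
    rw [e2] at h
    rw [← h]
    exact Equiv.symm_apply_apply _ _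

lemma circle_exists {q : ℝ} (hq : |q| < 1) (ρ : ℝ) :
    ∃ Γ, IsInvariantCircle (Vfun q ρ) 1 Γ ∧ IsAnalyticGraph Γ ∧
      HasRotationNumber (Vfun q ρ) 1 Γ ρ := by
  refine ⟨{p | p.2 = Rc q ρ p.1}, ⟨⟨⟨fun θ => (θ, Rc q ρ θ), ?_⟩, ?_, ?_, ?_⟩, ?_⟩, ?_, ?_⟩
  · exact continuous_id.prodMk (Rc_cont hq ρ)
  · intro a b h
    exact congrArg Prod.fst h
  · intro hnull
    have := hnull.comp_right (⟨Prod.fst, continuous_fst⟩ : C(UnitAddCircle × ℝ, UnitAddCircle))
    exact id_not_nullhomotopic this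
  · ext ⟨θ, r⟩
    constructor
    · rintro ⟨a, ha⟩
      have h1 : a = θ := congrArg Prod.fst ha
      have h2 : Rc q ρ a = r := congrArg Prod.snd ha
      subst h1
      exact h2.symm
    · intro h
      exact ⟨θ, Prod.ext rfl (by exact h.symm)⟩
  · ext ⟨θ, r⟩
    constructor
    · rintro ⟨⟨a, s⟩, hs, h⟩
      obtain ⟨x, rfl⟩ := QuotientAddGroup.mk_surjective a
      have hs' : s = Rfun q ρ x := by
        have : s = Rc q ρ (x : UnitAddCircle) := hs
        rw [this, Rc_coe]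
      have h2 := cylMap_proj (Vfun q ρ) 1 (x, Rfun q ρ x)
      rw [liftMap_graph hq] at h2
      subst hs'
      have h3 : ((θ, r) : UnitAddCircle × ℝ) = proj (gfun q ρ x, Rfun q ρ (gfun q ρ x)) := by
        rw [← h2, ← h]
        rfl
      have h4 : θ = ((gfun q ρ x : ℝ) : UnitAddCircle) := congrArg Prod.fst h3
      have h5 : r = Rfun q ρ (gfun q ρ x) := congrArg Prod.snd h3
      show r = Rc q ρ θ
      rw [h4, h5, Rc_coe]
    · intro h
      obtain ⟨x, rfl⟩ := QuotientAddGroup.mk_surjective θ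
      have h' : r = Rfun q ρ x := by
        have : r = Rc q ρ (x : UnitAddCircle) := h
        rw [this, Rc_coe]
      subst h'
      refine ⟨proj (gfun q (-ρ) x, Rfun q ρ (gfun q (-ρ) x)), ?_, ?_⟩
      · show Rfun q ρ (gfun q (-ρ) x) = Rc q ρ ((gfun q (-ρ) x : ℝ) : UnitAddCircle)
        rw [Rc_coe]
      · rw [cylMap_proj, liftMap_graph hq, gfun_gfun hq, neg_add_cancel, gfun_zero hq]
        rfl
  · refine ⟨Rc q ρ, ?_, rfl⟩
    simp only [Rc_coe]
    exact contDiff_omega_iff_analyticOnNhd.1 (Rfun_contDiff hq ρ)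
  · intro p hp
    obtain ⟨x, r⟩ := p
    have h' : r = Rfun q ρ x := by
      have : r = Rc q ρ (x : UnitAddCircle) := hp
      rw [this, Rc_coe]
    subst h'
    simp only [liftMap_graph_zpow hq]
    have hb : ∀ n : ℤ, n ≠ 0 → |(gfun q (n * ρ) x - x) / (n : ℝ) - ρ| ≤ 1 / |(n : ℝ)| := by
      intro n hn
      have hn' : (n : ℝ) ≠ 0 := by exact_mod_cast hn
      have e : (gfun q (n * ρ) x - x) / (n : ℝ) - ρ = (gfun q (n * ρ) x - x - n * ρ) / n := by
        field_simp
      rw [e, abs_div]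
      gcongr
      exact gfun_sub_le _ _ _
    constructor
    · rw [tendsto_iff_norm_sub_tendsto_zero]
      refine squeeze_zero' (Eventually.of_forall fun n => norm_nonneg _)
        (g := fun n : ℤ => 1 / |(n : ℝ)|) ?_ ?_
      · filter_upwards [eventually_gt_atTop (0 : ℤ)] with n hn
        exact hb n hn.ne'
      · have h1 : Tendsto (fun n : ℤ => |(n : ℝ)|) atTop atTop :=
          tendsto_abs_atTop_atTop.comp tendsto_intCast_atTop_atTop
        simp only [one_div]
        exact h1.inv_tendsto_atTop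
    · rw [tendsto_iff_norm_sub_tendsto_zero]
      refine squeeze_zero' (Eventually.of_forall fun n => norm_nonneg _)
        (g := fun n : ℤ => 1 / |(n : ℝ)|) ?_ ?_
      · filter_upwards [eventually_lt_atBot (0 : ℤ)] with n hn
        exact hb n hn.ne
      · have h1 : Tendsto (fun n : ℤ => |(n : ℝ)|) atBot atTop :=
          tendsto_abs_atBot_atTop.comp (tendsto_intCast_atBot_iff.2 tendsto_id)
        simp only [one_div]
        exact h1.inv_tendsto_atTop

lemma W_half (q ρ : ℝ) : W q ρ (1 / 2) = 0 := by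
  have h1 := W_neg q ρ (1 / 2)
  have h2 := W_periodic q ρ (-(1 / 2))
  have e : (-(1 / 2) + 1 : ℝ) = 1 / 2 := by norm_num
  rw [e] at h2
  linarith

lemma W_zero (q ρ : ℝ) : W q ρ 0 = 0 := by
  have h1 := W_neg q ρ 0
  rw [neg_zero] at h1
  linarith

lemma W_mean {q : ℝ} (ρ : ℝ) : ∫ x in (0 : ℝ)..1, W q ρ x = 0 := by
  have h1 := (W_periodic q ρ).intervalIntegral_add_eq (-1) 0
  rw [neg_add_cancel, zero_add] at h1
  have h2 := intervalIntegral.integral_comp_neg (a := 0) (b := 1) (W q ρ)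
  simp only [W_neg, intervalIntegral.integral_neg, neg_zero] at h2
  linarith

lemma cos_ne_one {ρ : ℝ} (hρ : ∀ m : ℤ, ρ ≠ m) : Real.cos (2 * Real.pi * ρ) ≠ 1 := by
  intro h
  rw [Real.cos_eq_one_iff] at h
  obtain ⟨n, hn⟩ := h
  apply hρ n
  have := Real.pi_pos
  have h2 : (2 * Real.pi) * ((n : ℝ) - ρ) = 0 := by linear_combination hn
  rcases mul_eq_zero.1 h2 with h3 | h3
  · exact absurd h3 (by positivity)
  · linarith

lemma W_continuousAt {ρ : ℝ} (hρ : ∀ m : ℤ, ρ ≠ m) {x : ℝ} (h0 : 0 < x) (h1 : x < 1) :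
    ContinuousAt (fun p : ℝ × ℝ => W p.1 ρ p.2) (1, x) := by
  have hx : ∀ m : ℤ, x ≠ m := by
    intro m hm
    rw [hm] at h0 h1
    have a : 0 < m := by exact_mod_cast h0
    have b : m < 1 := by exact_mod_cast h1
    omega
  have hA : ContinuousAt (fun p : ℝ × ℝ => A p.1 p.2) (1, x) := by
    apply A_continuousAt
    have := cos_ne_one hx
    intro h
    apply this
    linarith
  have hg : ∀ r : ℝ, (∀ m : ℤ, r ≠ m) →
      ContinuousAt (fun p : ℝ × ℝ => A (-p.1) (A p.1 p.2 + r)) (1, x) := by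
    intro r hr
    have h2 : ContinuousAt (fun p : ℝ × ℝ => A p.1 p.2) (-1, A 1 x + r) := by
      apply A_continuousAt
      rw [A_one h0 h1]
      have e : 2 * Real.pi * (1 / 2 + r) = 2 * Real.pi * r + Real.pi := by ring
      rw [e, Real.cos_add_pi]
      have := cos_ne_one hr
      intro h
      apply this
      linarith
    have h3 : ContinuousAt (fun p : ℝ × ℝ => ((-p.1, A p.1 p.2 + r) : ℝ × ℝ)) (1, x) :=
      continuousAt_fst.neg.prodMk (hA.add continuousAt_const)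
    exact ContinuousAt.comp (g := fun p : ℝ × ℝ => A p.1 p.2)
      (f := fun p : ℝ × ℝ => ((-p.1, A p.1 p.2 + r) : ℝ × ℝ)) h2 h3
  unfold W gfun
  refine ((hg ρ hρ).add (hg (-ρ) ?_)).sub (by fun_prop)
  intro m hm
  apply hρ (-m)
  push_cast
  linarith

lemma W_one {ρ x : ℝ} (h0 : 0 < x) (h1 : x < 1) : W 1 ρ x = 1 - 2 * x := by
  rw [W, gfun, gfun, A_one h0 h1, ← sub_eq_add_neg (1 / 2 : ℝ) ρ, A_neg_one]

/-- The function whose positivity yields an accelerator orbit. -/
noncomputable def Xf (q ρ y : ℝ) : ℝ := y + 3 / 8 * W q ρ (1 / 2 + y)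

/-- The function whose zero yields an accelerator orbit. -/
noncomputable def psi (q ρ y : ℝ) : ℝ :=
  3 / 4 * W q ρ (Xf q ρ y) - (1 / 2 + y - Xf q ρ y)

lemma exists_q {ρ : ℝ} (hρ : ∀ m : ℤ, ρ ≠ m) : ∃ q, 0 < q ∧ q < 1 ∧ 0 < psi q ρ (1 / 8) := by
  have e1 : Xf 1 ρ (1 / 8) = 1 / 32 := by
    rw [Xf, W_one (by norm_num) (by norm_num)]; norm_num
  have hX : ContinuousAt (fun q => Xf q ρ (1 / 8)) 1 := by
    unfold Xf
    have h1 : ContinuousAt (fun q : ℝ => W q ρ (1 / 2 + 1 / 8)) 1 :=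
      ContinuousAt.comp (g := fun p : ℝ × ℝ => W p.1 ρ p.2)
        (f := fun q : ℝ => ((q, 1 / 2 + 1 / 8) : ℝ × ℝ))
        (W_continuousAt hρ (by norm_num) (by norm_num)) (by fun_prop)
    exact continuousAt_const.add (continuousAt_const.mul h1)
  have hpsi : ContinuousAt (fun q => psi q ρ (1 / 8)) 1 := by
    unfold psi
    have h1 : ContinuousAt (fun q : ℝ => W q ρ (Xf q ρ (1 / 8))) 1 :=
      ContinuousAt.comp (g := fun p : ℝ × ℝ => W p.1 ρ p.2)
        (f := fun q : ℝ => ((q, Xf q ρ (1 / 8)) : ℝ × ℝ))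
        (by rw [e1]; exact W_continuousAt hρ (by norm_num) (by norm_num))
        (continuousAt_id.prodMk hX)
    exact (continuousAt_const.mul h1).sub (continuousAt_const.sub hX)
  have hval : psi 1 ρ (1 / 8) = 7 / 64 := by
    rw [psi, e1, W_one (by norm_num) (by norm_num)]; norm_num
  have hev : ∀ᶠ q in 𝓝 (1 : ℝ), 0 < psi q ρ (1 / 8) :=
    hpsi.eventually_const_lt (by show 0 < psi 1 ρ (1 / 8); rw [hval]; norm_num)
  have hev2 : ∀ᶠ q in 𝓝[<] (1 : ℝ), 0 < psi q ρ (1 / 8) := hev.filter_mono nhdsWithin_le_nhds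
  have hev3 : ∀ᶠ q in 𝓝[<] (1 : ℝ), q ∈ Ioo (0 : ℝ) 1 := Ioo_mem_nhdsLT (by norm_num)
  obtain ⟨q, hq1, hq2⟩ := (hev2.and hev3).exists
  exact ⟨q, hq2.1, hq2.2, hq1⟩

lemma exists_xy {q ρ : ℝ} (hq : |q| < 1) (h : 0 < psi q ρ (1 / 8)) :
    ∃ x y, 3 / 4 * W q ρ x = 1 / 2 + y - x ∧ 3 / 4 * W q ρ (1 / 2 + y) = 2 * x - 2 * y := by
  have hW : Continuous (W q ρ) := (W_contDiff hq ρ (n := 0)).continuous
  have hX : Continuous (Xf q ρ) := by unfold Xf; fun_prop
  have hpsi : Continuous (psi q ρ) := by unfold psi; fun_prop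
  have h0 : psi q ρ 0 = -1 / 2 := by
    rw [psi, Xf, add_zero, W_half, mul_zero, add_zero, W_zero]; norm_num
  obtain ⟨y, -, hy⟩ := intermediate_value_Icc (by norm_num : (0 : ℝ) ≤ 1 / 8)
    hpsi.continuousOn (show (0 : ℝ) ∈ Icc (psi q ρ 0) (psi q ρ (1 / 8)) by
      rw [h0]; exact ⟨by norm_num, h.le⟩)
  refine ⟨Xf q ρ y, y, ?_, ?_⟩
  · rw [psi] at hy
    linarith
  · rw [Xf]; ring

lemma golden_irr : Irrational ((√5 - 1) / 2) := by
  have h := Real.goldenConj_irrational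
  have e : (√5 - 1) / 2 = -Real.goldenConj := by rw [Real.goldenConj]; ring
  rw [e]
  exact h.neg

lemma golden_dioph : IsDiophantine ((√5 - 1) / 2) := by
  refine ⟨1 / 10, by norm_num, 3, by norm_num, fun m n hn => ?_⟩
  have hn1 : (1 : ℝ) ≤ n := by exact_mod_cast hn
  have hn0 : (0 : ℝ) < n := by linarith
  have hrp : (n : ℝ) ^ (3 : ℝ) = (n : ℝ) ^ 3 := by
    have : (3 : ℝ) = ((3 : ℕ) : ℝ) := by norm_num
    rw [this, Real.rpow_natCast]
  rw [hrp]
  set σ : ℝ := (√5 - 1) / 2 with hσ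
  have h5 : √5 ^ 2 = 5 := Real.sq_sqrt (by norm_num)
  have h5a : √5 < 3 := by
    rw [Real.sqrt_lt' (by norm_num)]; norm_num
  have h5b : 0 ≤ √5 := Real.sqrt_nonneg _
  set x : ℝ := m / n with hx
  by_cases hbig : 1 ≤ |σ - x|
  · have : 1 / 10 / (n : ℝ) ^ 3 < 1 := by
      rw [div_lt_one (by positivity)]
      have : (1 : ℝ) ≤ (n : ℝ) ^ 3 := one_le_pow₀ hn1
      linarith
    linarith
  · push Not at hbig
    have hfac : (σ - x) * (x + σ + 1) = -(x ^ 2 + x - 1) := by
      rw [hσ]; linear_combination (1 / 4 : ℝ) * h5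
    have hint : x ^ 2 + x - 1 = ((m ^ 2 + m * n - n ^ 2 : ℤ) : ℝ) / (n : ℝ) ^ 2 := by
      rw [hx]; push_cast; field_simp
    have hne : (m ^ 2 + m * n - n ^ 2 : ℤ) ≠ 0 := by
      intro h0
      rw [h0] at hint
      simp only [Int.cast_zero, zero_div] at hint
      rw [hint, neg_zero] at hfac
      rcases mul_eq_zero.1 hfac with h | h
      · apply golden_irr
        refine ⟨(m : ℚ) / n, ?_⟩
        push_cast
        linarith
      · apply golden_irr
        refine ⟨-((m : ℚ) / n) - 1, ?_⟩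
        push_cast
        linarith
    have habs : 1 / (n : ℝ) ^ 2 ≤ |x ^ 2 + x - 1| := by
      rw [hint, abs_div, abs_of_pos (by positivity : (0 : ℝ) < (n : ℝ) ^ 2)]
      gcongr
      have : (1 : ℤ) ≤ |m ^ 2 + m * n - n ^ 2| := Int.one_le_abs hne
      exact_mod_cast this
    have hle4 : |x + σ + 1| ≤ 4 := by
      have h1 := abs_lt.1 hbig
      rw [abs_le]
      constructor
      · rw [hσ] at h1 ⊢; linarith
      · rw [hσ] at h1 ⊢; linarith
    have hprod : |σ - x| * |x + σ + 1| = |x ^ 2 + x - 1| := by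
      rw [← abs_mul, hfac, abs_neg]
    have h6 : 1 / (n : ℝ) ^ 2 ≤ |σ - x| * 4 := by
      calc 1 / (n : ℝ) ^ 2 ≤ |x ^ 2 + x - 1| := habs
        _ = |σ - x| * |x + σ + 1| := hprod.symm
        _ ≤ |σ - x| * 4 := by gcongr
    have h7 : 1 / 10 / (n : ℝ) ^ 3 ≤ 1 / 10 * (1 / (n : ℝ) ^ 2) := by
      rw [div_le_iff₀ (by positivity)]
      have : 1 / 10 * (1 / (n : ℝ) ^ 2) * (n : ℝ) ^ 3 = 1 / 10 * n := by
        field_simp
      rw [this]; linarith
    have h8 : (0 : ℝ) < 1 / (n : ℝ) ^ 2 := by positivity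
    linarith

theorem main (ρ : ℝ) (hρ : ∀ m : ℤ, ρ ≠ m) :
    ∃ V, IsPotential V ∧
      (∃ Γ, IsInvariantCircle V 1 Γ ∧ IsAnalyticGraph Γ ∧ HasRotationNumber V 1 Γ ρ) ∧
      ∀ Γ, ¬ IsInvariantCircle V (3 / 4) Γ := by
  obtain ⟨q, hq0, hq1, hpsi⟩ := exists_q hρ
  have hq : |q| < 1 := by rw [abs_of_pos hq0]; exact hq1
  refine ⟨Vfun q ρ, ⟨?_, ?_, ?_⟩, circle_exists hq ρ, ?_⟩
  · simp only [Vfun_coe]
    exact contDiff_omega_iff_analyticOnNhd.1 (W_contDiff hq ρ)
  · intro h0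
    have hW : ∀ x, W q ρ x = 0 := fun x => by rw [← Vfun_coe, h0]; rfl
    rw [psi, Xf, hW, hW] at hpsi
    norm_num at hpsi
  · simp only [Vfun_coe]
    exact W_mean ρ
  · obtain ⟨x, y, h1, h2⟩ := exists_xy hq hpsi
    exact no_circle (Vfun_cont hq ρ) (x := x) (y := y) (by rw [Vfun_coe]; exact h1)
      (by rw [Vfun_coe]; exact h2)

/-- **Main result.**  (1) For every non-integer `ρ` there is an admissible `V` such that `F_{V,1}`
has an analytic invariant circle of rotation number `ρ` while `F_{V,3/4}` has no invariant circle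
at all; in particular `(V, ρ)` has no threshold.  (2) The threshold conjecture is false. -/
theorem result :
    (∀ ρ : ℝ, (∀ m : ℤ, ρ ≠ m) →
      ∃ V, IsPotential V ∧
        (∃ Γ, IsInvariantCircle V 1 Γ ∧ IsAnalyticGraph Γ ∧ HasRotationNumber V 1 Γ ρ) ∧
        (∀ Γ, ¬ IsInvariantCircle V (3 / 4) Γ) ∧ ¬ HasThreshold V ρ) ∧
    ¬ ∀ V, IsPotential V → ∀ ρ, IsDiophantine ρ → HasThreshold V ρ := by
  have h1 : ∀ ρ : ℝ, (∀ m : ℤ, ρ ≠ m) →
      ∃ V, IsPotential V ∧
        (∃ Γ, IsInvariantCircle V 1 Γ ∧ IsAnalyticGraph Γ ∧ HasRotationNumber V 1 Γ ρ) ∧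
        (∀ Γ, ¬ IsInvariantCircle V (3 / 4) Γ) ∧ ¬ HasThreshold V ρ := by
    intro ρ hρ
    obtain ⟨V, hV, ⟨Γ, hΓ, hΓa, hΓr⟩, hno⟩ := main ρ hρ
    refine ⟨V, hV, ⟨Γ, hΓ, hΓa, hΓr⟩, hno, ?_⟩
    rintro ⟨L, -, hL1, hL2⟩
    rcases lt_or_ge L 1 with hL | hL
    · exact hL1 1 (by simpa using hL) ⟨Γ, hΓ, hΓr⟩
    · obtain ⟨Γ', hΓ', -⟩ := hL2 (3 / 4) (by
        rw [abs_of_pos (by norm_num)]; linarith)
      exact hno Γ' hΓ'
  refine ⟨h1, fun h => ?_⟩
  obtain ⟨V, hV, -, -, hthr⟩ := h1 ((√5 - 1) / 2) (fun m hm => golden_irr ⟨m, by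
    rw [hm]; simp⟩)
  exact hthr (h V hV _ golden_dioph)

end Pool.Agent.Results.MP_d23f22_an.ThresholdFails
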